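import Pool.Agent.H3.OD.Targets

/-!
PSH: power series as series in `u ^ (1/n)` (board `ode2_modules`, `MP_70ba79_ag`).
-/

set_option autoImplicit false

namespace Pool.Agent.H72.OD

open Pool.Agent.H92.OD Pool.Agent.H3.OD

/-- the map `m -> m / n` -/
noncomputable def fn (n : ℕ) : ℕ →+ ℚ where
  toFun m := (m : ℚ) / n
  map_zero' := by simp
  map_add' a b := by push_cast; ring

theorem fn_inj {n : ℕ} (hn : 0 < n) : Function.Injective (fn n) := by
  intro a b h
  have h1 : (a : ℚ) / n = (b : ℚ) / n := h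
  have h2 : (n : ℚ) ≠ 0 := by exact_mod_cast hn.ne'
  rw [div_left_inj' h2] at h1
  exact_mod_cast h1

theorem fn_le {n : ℕ} (hn : 0 < n) (a b : ℕ) : fn n a ≤ fn n b ↔ a ≤ b := by
  change (a : ℚ) / n ≤ (b : ℚ) / n ↔ a ≤ b
  have h2 : (0 : ℚ) < n := by exact_mod_cast hn
  rw [div_le_div_iff_of_pos_right h2]
  exact Nat.cast_le

theorem pf_PSH : T_PSH := by
  intro k _ _ n hn
  let e : PowerSeries k →+* HahnSeries ℚ k :=
    (HahnSeries.embDomainRingHom (fn n) (fn_inj hn) (fn_le hn)).comp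
      (RingEquiv.toRingHom HahnSeries.toPowerSeries.symm)
  have h1 : ∀ (f : PowerSeries k) (m : ℕ), (e f).coeff ((m : ℚ) / n) = PowerSeries.coeff m f := by
    intro f m
    have h := HahnSeries.embDomain_coeff (f := (⟨⟨fn n, fn_inj hn⟩, fn_le hn _ _⟩ : ℕ ↪o ℚ))
      (x := HahnSeries.toPowerSeries.symm f) (a := m)
    rw [HahnSeries.coeff_toPowerSeries_symm] at h
    exact h
  have h2 : ∀ (f : PowerSeries k) (r : ℚ), (∀ m : ℕ, r ≠ (m : ℚ) / n) → (e f).coeff r = 0 := by
    intro f r hr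
    have h := HahnSeries.embDomain_notin_image_support
      (f := (⟨⟨fn n, fn_inj hn⟩, fn_le hn _ _⟩ : ℕ ↪o ℚ))
      (x := HahnSeries.toPowerSeries.symm f) (b := r) ?_
    · exact h
    · rintro ⟨m, -, hm⟩
      exact hr m hm.symm
  have hn' : (n : ℚ) ≠ 0 := by exact_mod_cast hn.ne'
  refine ⟨e, fun c => ?_, ?_, h1, h2⟩
  · refine hs_ext fun r => ?_
    rw [algebraMap_HS, cf_sg]
    change (e (PowerSeries.C c)).coeff r = if r = 0 then c else 0
    by_cases hr : ∃ m : ℕ, r = (m : ℚ) / n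
    · obtain ⟨m, rfl⟩ := hr
      rw [h1, PowerSeries.coeff_C]
      by_cases hm : m = 0
      · subst hm
        simp
      · rw [if_neg hm, if_neg]
        rw [div_eq_zero_iff, not_or]
        exact ⟨by exact_mod_cast hm, hn'⟩
    · push Not at hr
      rw [h2 _ _ hr, if_neg]
      rintro rfl
      exact hr 0 (by simp)
  · refine hs_ext fun r => ?_
    rw [cf_sg]
    change (e PowerSeries.X).coeff r = if r = 1 / (n : ℚ) then 1 else 0
    by_cases hr : ∃ m : ℕ, r = (m : ℚ) / n
    · obtain ⟨m, rfl⟩ := hr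
      rw [h1, PowerSeries.coeff_X]
      by_cases hm : m = 1
      · subst hm
        simp
      · rw [if_neg hm, if_neg]
        rw [div_left_inj' hn']
        exact_mod_cast hm
    · push Not at hr
      rw [h2 _ _ hr, if_neg]
      rintro rfl
      exact hr 1 (by simp)

end Pool.Agent.H72.OD
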